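import Pool.Agent.TMX.Stmts4

/-!
# Squad TMX (MP_b61ad0_an), row ChM: the chain of the good peaks
-/

set_option autoImplicit false

namespace Pool.Agent.TMX.H66

open Finset
open Pool.Agent.Helper51_Max (I IsMax)
open Pool.Agent.Helper37_EM (var)

theorem var_split (u : ℕ → ℝ) {a b c : ℕ} (hab : a ≤ b) (hbc : b ≤ c) :
    var u a b + var u b c = var u a c := by
  unfold var
  exact sum_Ico_consecutive _ hab hbc

theorem chM : ChM := by
  intro hB N g M _ s t hs ht hst hgap
  obtain ⟨happ, _, _, _, hone⟩ := hB N g
  induction hn : t - s using Nat.strong_induction_on generalizing s t with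
  | _ n ih =>
    rcases hst.eq_or_lt with h | h
    · subst h
      have h1 : var M s s = 0 := by
        unfold var
        rw [Ico_self, sum_empty]
      rw [h1]
      exact Ch.nil s
    · by_cases hex : ∃ v, s < v ∧ v < t ∧ Pk N g M v
      · obtain ⟨v, hsv, hvt, hv⟩ := hex
        have h1 := ih (v - s) (by omega) s v hs hv hsv.le
          (fun p p' hp h2 h3 => hgap p p' hp h2 (h3.trans hvt.le)) rfl
        have h2 := ih (t - v) (by omega) v t hv ht hvt.le
          (fun p p' hp h2 h3 => hgap p p' hp (hsv.le.trans h2) h3) rfl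
        rw [← var_split M hsv.le hvt.le]
        exact happ s v t _ _ h1 h2
      · have hG : Gap N g M s t :=
          ⟨hs, ht, h, fun v h1 h2 h3 => hex ⟨v, h1, h2, h3⟩⟩
        have h1 := hone s t _ h (hgap s t hG le_rfl le_rfl)
        have h2 : g s + g t - 2 * Qv g M s t = var M s t := by
          unfold Qv
          ring
        rwa [h2] at h1

end Pool.Agent.TMX.H66
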